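import Mathlib

/-!
# An explicit quintic with sign changes

`F = X^5 + 4 X^4 - 236 X^3 - 512 X^2 + 10784 X - 7712` is irreducible and its root generates the
cyclic quintic field of conductor `101`. If `h` is completely multiplicative with values `1`, `-1`
and `h 2 = -1`, both signs of `h(|F(n)|)` occur with `x ≤ |n| ≤ C x`, for every `x ≥ 1`.

Proof: if `w` is a root of `2^{-5} F(2X)` then a conjugate `s` of `w` satisfies
`(4s-7)^2 - 2(2w+12)^2 = 17`. For `n^2 - 2m^2 = 17` the norm of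
`(n-4s+7)(n+4s-7) = 2(m-2w-12)(m+2w+12)` is
`2^5 F((n+7)/2) F((7-n)/2) = F(m-12) F(-m-12)`.
-/

namespace Pool.Agent.Lib_helper62.QUI

open Polynomial

/-- The quintic. -/
noncomputable def F101 : ℤ[X] :=
  X ^ 5 + C 4 * X ^ 4 - C 236 * X ^ 3 - C 512 * X ^ 2 + C 10784 * X - C 7712

theorem F101_eval (n : ℤ) :
    F101.eval n = n ^ 5 + 4 * n ^ 4 - 236 * n ^ 3 - 512 * n ^ 2 + 10784 * n - 7712 := by
  simp [F101]

theorem identity101 (k l : ℤ) (H : k ^ 2 + k - 4 = 2 * l ^ 2) :
    32 * (F101.eval (k + 4) * F101.eval (3 - k)) =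
      F101.eval (2 * l - 12) * F101.eval (-(2 * l) - 12) := by
  have h1 : F101.eval (2 * l - 12) * F101.eval (-(2 * l) - 12) =
      -32 * (2 * l ^ 2) ^ 5 + 17792 * (2 * l ^ 2) ^ 4 - 2914944 * (2 * l ^ 2) ^ 3 +
        145559552 * (2 * l ^ 2) ^ 2 - 742064128 * (2 * l ^ 2) + 965469184 := by
    rw [F101_eval, F101_eval]; ring
  rw [h1, ← H, F101_eval, F101_eval]
  ring

/-- the Pell orbit -/
theorem pell_step (k l : ℤ) (H : k ^ 2 + k - 4 = 2 * l ^ 2) :
    (3 * k + 4 * l + 1) ^ 2 + (3 * k + 4 * l + 1) - 4 = 2 * (2 * k + 3 * l + 1) ^ 2 := by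
  linear_combination H

theorem pell (x : ℕ) : ∃ k l : ℤ, 0 ≤ k ∧ k ^ 2 + k - 4 = 2 * l ^ 2 ∧ (x : ℤ) + 1 ≤ l ∧
    l ≤ 7 * (x + 1) := by
  induction x with
  | zero => exact ⟨2, 1, by norm_num, by norm_num, by norm_num, by norm_num⟩
  | succ x ih =>
    obtain ⟨k, l, hk, H, h1, h2⟩ := ih
    push_cast
    by_cases h : (x : ℤ) + 1 + 1 ≤ l
    · exact ⟨k, l, hk, H, h, by linarith⟩
    · have hl : l = (x : ℤ) + 1 := by omega
      have hx : (0 : ℤ) ≤ x := Int.natCast_nonneg x
      refine ⟨3 * k + 4 * l + 1, 2 * k + 3 * l + 1, by omega, pell_step k l H, by omega, ?_⟩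
      have h3 : 2 * k + 1 ≤ 3 * l + 3 := by nlinarith
      omega

theorem eval_ne (n : ℤ) : F101.eval n ≠ 0 := by
  intro h
  rw [F101_eval] at h
  have h3 : ((n : ZMod 3) ^ 5 + 4 * (n : ZMod 3) ^ 4 - 236 * (n : ZMod 3) ^ 3 -
      512 * (n : ZMod 3) ^ 2 + 10784 * (n : ZMod 3) - 7712) = 0 := by
    have := congrArg (Int.cast : ℤ → ZMod 3) h
    push_cast at this
    exact this
  revert h3
  generalize (n : ZMod 3) = y
  revert y
  decide

theorem both101 (h : ℕ → ℤ) (hv : ∀ m : ℕ, 1 ≤ m → h m = 1 ∨ h m = -1)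
    (hm : ∀ m n : ℕ, 1 ≤ m → 1 ≤ n → h (m * n) = h m * h n) (h2 : h 2 = -1)
    (x : ℕ) (hx : 1 ≤ x) (s : ℤ) (hs : s = 1 ∨ s = -1) :
    ∃ n : ℤ, (x : ℤ) ≤ |n| ∧ |n| ≤ 236 * x ∧ h (F101.eval n).natAbs = s := by
  obtain ⟨k, l, hk, H, h1, h3⟩ := pell (x + 14)
  push_cast at h1 h3
  have hx' : (1 : ℤ) ≤ x := by exact_mod_cast hx
  have hl : l ≤ 112 * x := by linarith
  have hkl : l ≤ k := by nlinarith
  have hkl2 : k ≤ 2 * l := by nlinarith
  have hpos : ∀ n : ℤ, 1 ≤ (F101.eval n).natAbs := fun n => by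
    have := eval_ne n
    omega
  have h32 : h 32 = -1 := by
    have e4 : h 4 = 1 := by
      rw [show (4 : ℕ) = 2 * 2 by norm_num, hm 2 2 (by norm_num) (by norm_num), h2]; norm_num
    have e8 : h 8 = -1 := by
      rw [show (8 : ℕ) = 4 * 2 by norm_num, hm 4 2 (by norm_num) (by norm_num), h2, e4]; norm_num
    rw [show (32 : ℕ) = 8 * 4 by norm_num, hm 8 4 (by norm_num) (by norm_num), e8, e4]; norm_num
  have E := congrArg Int.natAbs (identity101 k l H)
  rw [Int.natAbs_mul, Int.natAbs_mul, Int.natAbs_mul] at E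
  have E1 := congrArg h E
  rw [show (32 : ℤ).natAbs = 32 by norm_num] at E1
  have p1 := hpos (k + 4)
  have p2 := hpos (3 - k)
  have p3 := hpos (2 * l - 12)
  have p4 := hpos (-(2 * l) - 12)
  rw [hm 32 _ (by norm_num) (Nat.mul_pos p1 p2), hm _ _ p1 p2, hm _ _ p3 p4, h32] at E1
  by_contra hcon
  push Not at hcon
  have key : ∀ n : ℤ, (x : ℤ) ≤ |n| → |n| ≤ 236 * x → h (F101.eval n).natAbs = -s := by
    intro n a b
    have := hcon n a b
    rcases hv _ (hpos n) with h5 | h5 <;> rcases hs with h6 | h6 <;> simp_all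
  have k1 := key (k + 4) (by rw [abs_of_nonneg (by linarith)]; linarith)
    (by rw [abs_of_nonneg (by linarith)]; linarith)
  have k2 := key (3 - k) (by rw [abs_of_nonpos (by linarith)]; linarith)
    (by rw [abs_of_nonpos (by linarith)]; linarith)
  have k3 := key (2 * l - 12) (by rw [abs_of_nonneg (by linarith)]; linarith)
    (by rw [abs_of_nonneg (by linarith)]; linarith)
  have k4 := key (-(2 * l) - 12) (by rw [abs_of_nonpos (by linarith)]; linarith)
    (by rw [abs_of_nonpos (by linarith)]; linarith)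
  rw [k1, k2, k3, k4] at E1
  rcases hs with h6 | h6 <;> rw [h6] at E1 <;> norm_num at E1

theorem F101_monic : F101.Monic := by
  unfold F101
  monicity!

theorem F101_natDegree : F101.natDegree = 5 := by
  unfold F101
  compute_degree!

theorem F101_comp : F101.comp (X + C 80) =
    X ^ 5 + C 404 * X ^ 4 + C 65044 * X ^ 3 + C 5216448 * X ^ 2 + C 208389664 * X +
      C 3317386208 := by
  simp only [F101, sub_comp, add_comp, mul_comp, pow_comp, X_comp, C_comp]
  simp only [map_ofNat]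
  ring

theorem F101_irreducible : Irreducible F101 := by
  have hprime : Prime (101 : ℤ) := by
    rw [Int.prime_iff_natAbs_prime]; norm_num
  have h1 : Irreducible (F101.comp (X + C 80)) := by
    rw [F101_comp]
    set P : ℤ[X] := X ^ 5 + C 404 * X ^ 4 + C 65044 * X ^ 3 + C 5216448 * X ^ 2 +
      C 208389664 * X + C 3317386208 with hP
    have hmon : P.Monic := by rw [hP]; monicity!
    have hdeg : P.natDegree = 5 := by rw [hP]; compute_degree!
    have hE : P.IsEisensteinAt (Ideal.span {(101 : ℤ)}) := by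
      refine ⟨?_, ?_, ?_⟩
      · rw [hmon.leadingCoeff, Ideal.mem_span_singleton]; norm_num
      · intro n hn
        rw [hdeg] at hn
        rw [Ideal.mem_span_singleton]
        interval_cases n <;> simp [hP, coeff_X, coeff_X_pow]
      · rw [Ideal.span_singleton_pow, Ideal.mem_span_singleton]
        simp [hP, coeff_X, coeff_X_pow]
    refine hE.irreducible ?_ hmon.isPrimitive (by rw [hdeg]; norm_num)
    rw [Ideal.span_singleton_prime (by norm_num)]
    exact hprime
  have h2 : F101.comp (X + C 80) = algEquivAevalXAddC (80 : ℤ) F101 := by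
    simp [algEquivAevalXAddC, comp, aeval_def, eval₂_eq_eval_map]
  rw [h2] at h1
  exact (MulEquiv.irreducible_iff (algEquivAevalXAddC (80 : ℤ))).1 h1

end Pool.Agent.Lib_helper62.QUI
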