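import Pool.Agent.Lib_helper62.QUI.Cyc101

/-!
# The quintic `F101` generates a Galois (cyclic) field
-/

namespace Pool.Agent.Lib_helper62.QUI

open Polynomial Module

/-- The conjugate of a root, as a polynomial in the root. -/
theorem conj_root {K : Type*} [Field K] [CharZero K] (w s : K)
    (hw : w ^ 5 + 2 * w ^ 4 - 59 * w ^ 3 - 64 * w ^ 2 + 674 * w - 241 = 0)
    (hs : s = (38960 - 10452 * w - 4923 * w ^ 2 + 184 * w ^ 3 + 86 * w ^ 4) / 5389) :
    s ^ 2 = w ^ 2 / 2 + 6 * w + 7 / 2 * s + 16 ∧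
      s ^ 5 + 2 * s ^ 4 - 59 * s ^ 3 - 64 * s ^ 2 + 674 * s - 241 = 0 := by
  have h1 : s ^ 2 = w ^ 2 / 2 + 6 * w + 7 / 2 * s + 16 := by
    rw [hs]
    linear_combination ((-1321064 / 29041321 : K) + (-410248 / 29041321) * w +
      (16856 / 29041321) * w ^ 2 + (7396 / 29041321) * w ^ 3) * hw
  refine ⟨h1, ?_⟩
  have h2 : (-1187 + 2037 / 4 * w + 5863 / 16 * w ^ 2 + 54 * w ^ 3 + 9 / 4 * w ^ 4) +
      (1393 / 16 + 285 / 2 * w + 383 / 8 * w ^ 2 + 6 * w ^ 3 + 1 / 4 * w ^ 4) * s = 0 := by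
    rw [hs]
    linear_combination ((12468 / 5389 : K) + (4221 / 5389) * w + (519 / 5389) * w ^ 2 +
      (43 / 10778) * w ^ 3) * hw
  linear_combination ((-473 / 8 + 54 * w + 9 / 2 * w ^ 2) + (-95 / 4 + 6 * w + 1 / 2 * w ^ 2) * s +
    11 / 2 * s ^ 2 + s ^ 3) * h1 + h2

/-- `F101` over `ℚ`. -/
noncomputable def Q101 : ℚ[X] := F101.map (Int.castRingHom ℚ)

theorem Q101_irreducible : Irreducible Q101 :=
  (F101_monic.irreducible_iff_irreducible_map_fraction_map (K := ℚ)).1 F101_irreducible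

theorem Q101_monic : Q101.Monic := F101_monic.map _

theorem Q101_natDegree : Q101.natDegree = 5 := by
  rw [Q101, F101_monic.natDegree_map, F101_natDegree]

theorem Q101_eval₂ {K : Type*} [Field K] [Algebra ℚ K] (t : K) (f : ℤ →+* K) :
    aeval t Q101 = eval₂ f t F101 := by
  rw [Q101, aeval_def, eval₂_map]
  congr 1
  exact RingHom.ext_int _ _

theorem Q101_aeval {K : Type*} [Field K] [Algebra ℚ K] (t : K) :
    aeval t Q101 = t ^ 5 + 4 * t ^ 4 - 236 * t ^ 3 - 512 * t ^ 2 + 10784 * t - 7712 := by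
  rw [Q101_eval₂ t (Int.castRingHom K)]
  simp [F101, eval₂_sub, eval₂_add, eval₂_mul, eval₂_pow]

/-- A number field generated by a root of `F101` is Galois with cyclic group. -/
theorem galois101 {K : Type} [Field K] [NumberField K] (h5 : finrank ℚ K = 5) (t : K)
    (ht : aeval t Q101 = 0) : IsGalois ℚ K ∧ IsCyclic (K ≃ₐ[ℚ] K) := by
  have hmin : minpoly ℚ t = Q101 :=
    (minpoly.eq_of_irreducible_of_monic Q101_irreducible ht Q101_monic).symm
  have hint : IsIntegral ℚ t := ⟨Q101, Q101_monic, ht⟩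
  have hdeg : (minpoly ℚ t).natDegree = 5 := by rw [hmin, Q101_natDegree]
  have htop : IntermediateField.adjoin ℚ {t} = (⊤ : IntermediateField ℚ K) :=
    (Field.primitive_element_iff_minpoly_natDegree_eq ℚ t).2 (by rw [hdeg, h5])
  -- the conjugate
  set w : K := t / 2 with hw
  set s : K := (38960 - 10452 * w - 4923 * w ^ 2 + 184 * w ^ 3 + 86 * w ^ 4) / 5389 with hs
  have ht' := ht
  rw [Q101_aeval] at ht'
  have hwt : t = 2 * w := by rw [hw]; ring
  have hroot : w ^ 5 + 2 * w ^ 4 - 59 * w ^ 3 - 64 * w ^ 2 + 674 * w - 241 = 0 := by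
    rw [hwt] at ht'
    linear_combination (1 / 32 : K) * ht'
  obtain ⟨c1, c2⟩ := conj_root w s hroot hs
  have hs2 : aeval (2 * s) Q101 = 0 := by
    rw [Q101_aeval]
    linear_combination (32 : K) * c2
  have hne : (2 * s : K) ≠ t := by
    intro e
    have e1 : s = w := by
      have : (2 : K) * s = 2 * w := by rw [e, hwt]
      exact mul_left_cancel₀ two_ne_zero this
    rw [e1] at c1
    have e2 : aeval t (X ^ 2 - C 38 * X - C 128 : ℚ[X]) = 0 := by
      simp only [map_sub, map_mul, map_pow, aeval_X, aeval_C]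
      rw [hwt]
      have h38 : (algebraMap ℚ K) 38 = 38 := map_ofNat _ 38
      have h128 : (algebraMap ℚ K) 128 = 128 := map_ofNat _ 128
      rw [h38, h128]
      linear_combination (8 : K) * c1
    have hd : (X ^ 2 - C 38 * X - C 128 : ℚ[X]).natDegree = 2 := by compute_degree!
    have hn : (X ^ 2 - C 38 * X - C 128 : ℚ[X]) ≠ 0 := by
      intro h0
      rw [h0] at hd
      simp at hd
    have := natDegree_le_of_dvd (minpoly.dvd ℚ t e2) hn
    omega
  have hmem : 2 * s ∈ (minpoly ℚ t).aroots K := by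
    rw [mem_aroots, hmin]
    exact ⟨Q101_monic.ne_zero, hs2⟩
  let φ : IntermediateField.adjoin ℚ {t} →ₐ[ℚ] K :=
    (IntermediateField.algHomAdjoinIntegralEquiv ℚ hint).symm ⟨2 * s, hmem⟩
  have hφ : φ (IntermediateField.AdjoinSimple.gen ℚ t) = 2 * s :=
    IntermediateField.algHomAdjoinIntegralEquiv_symm_apply_gen ℚ hint ⟨2 * s, hmem⟩
  let ψ : K →ₐ[ℚ] K := φ.comp
    (((IntermediateField.equivOfEq htop).symm.toAlgHom).comp
      (IntermediateField.topEquiv (F := ℚ) (E := K)).symm.toAlgHom)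
  have hψ : ψ t = 2 * s := by
    rw [← hφ]
    rfl
  let σ : K ≃ₐ[ℚ] K := AlgEquiv.ofBijective ψ (Algebra.IsAlgebraic.algHom_bijective ψ)
  have hσt : σ t = 2 * s := hψ
  have hσ1 : σ ≠ 1 := by
    intro e
    apply hne
    rw [← hσt, e]
    rfl
  let H : Subgroup (K ≃ₐ[ℚ] K) := Subgroup.zpowers σ
  have hcard : finrank (IntermediateField.fixedField H) K = Nat.card H :=
    IntermediateField.finrank_fixedField_eq_card H
  have hmul : finrank ℚ (IntermediateField.fixedField H) *
      finrank (IntermediateField.fixedField H) K = 5 := by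
    rw [finrank_mul_finrank, h5]
  have hH : Nat.card H = 5 := by
    have hdvd : Nat.card H ∣ 5 := by
      rw [← hcard, ← hmul]
      exact dvd_mul_left _ _
    rcases (Nat.dvd_prime (by norm_num : Nat.Prime 5)).1 hdvd with h | h
    · exfalso
      have h1 : H = ⊥ := Subgroup.card_eq_one.1 h
      exact hσ1 ((Subgroup.zpowers_eq_bot).1 h1)
    · exact h
  have hle : Nat.card H ≤ Nat.card (K ≃ₐ[ℚ] K) := Subgroup.card_le_card_group H
  have hle2 : Nat.card (K ≃ₐ[ℚ] K) ≤ finrank ℚ K := by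
    rw [Nat.card_eq_fintype_card]
    exact AlgEquiv.card_le
  have hfin : Nat.card (K ≃ₐ[ℚ] K) = finrank ℚ K := by omega
  refine ⟨IsGalois.of_card_aut_eq_finrank ℚ K hfin, ?_⟩
  have hp : Nat.card (K ≃ₐ[ℚ] K) = 5 := by rw [hfin, h5]
  have : Fact (Nat.Prime 5) := ⟨by norm_num⟩
  exact isCyclic_of_prime_card hp

/-- There is a cyclic number field of degree `5` generated by a root of `F101`. -/
theorem exists101 : ∃ (K : Type) (_ : Field K) (_ : NumberField K), finrank ℚ K = 5 ∧
    IsGalois ℚ K ∧ IsCyclic (K ≃ₐ[ℚ] K) ∧ ∃ t : K, minpoly ℤ t = F101 := by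
  have : Fact (Irreducible Q101) := ⟨Q101_irreducible⟩
  have hnf : NumberField (AdjoinRoot Q101) := by
    have : FiniteDimensional ℚ (AdjoinRoot Q101) :=
      (AdjoinRoot.powerBasis Q101_irreducible.ne_zero).finite
    exact { to_charZero := charZero_of_injective_algebraMap (algebraMap ℚ _).injective
            to_finiteDimensional := inferInstance }
  have h5 : finrank ℚ (AdjoinRoot Q101) = 5 := by
    rw [(AdjoinRoot.powerBasis Q101_irreducible.ne_zero).finrank, AdjoinRoot.powerBasis_dim,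
      Q101_natDegree]
  have hroot : aeval (AdjoinRoot.root Q101) Q101 = 0 := AdjoinRoot.eval₂_root Q101
  obtain ⟨g1, g2⟩ := galois101 h5 (AdjoinRoot.root Q101) hroot
  refine ⟨AdjoinRoot Q101, inferInstance, hnf, h5, g1, g2, AdjoinRoot.root Q101, ?_⟩
  have hint : IsIntegral ℤ (AdjoinRoot.root Q101) := by
    refine ⟨F101, F101_monic, ?_⟩
    rw [← Q101_eval₂ (AdjoinRoot.root Q101) (algebraMap ℤ (AdjoinRoot Q101)), hroot]
  have h1 : minpoly ℚ (AdjoinRoot.root Q101) = Q101 :=
    (minpoly.eq_of_irreducible_of_monic Q101_irreducible hroot Q101_monic).symm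
  have h2 := minpoly.isIntegrallyClosed_eq_field_fractions' ℚ hint
  rw [h1] at h2
  have h3 : Function.Injective (Polynomial.map (algebraMap ℤ ℚ)) :=
    Polynomial.map_injective _ (algebraMap ℤ ℚ).injective_int
  exact h3 h2.symm

end Pool.Agent.Lib_helper62.QUI
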